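import Pool.Agent.Y607.BI.Main

/-!
# One Borel graph of degree at most three whose isomorphism class is `Σ¹₂`-complete

The definitions of codes, `Σ¹₂` sets, Borel graphs and Borel isomorphism are in
`Pool/Agent/TH723/BI/Defs.lean`.

Idea. Let `A` be `Σ¹₂` and write `a ∈ A ↔ ∃ y, T a y` is well-founded. As in the earlier proof of
`Σ¹₂`-completeness of the isomorphism *relation*, there is a Borel relation `F a c w` (`w` is a good
witness for the parameter `a` and the code `c`) such that for `a ∈ A` there is a Borel function
choosing a good witness for every `c`, and for `a ∉ A` there is none. Now let `G₀` consist of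
continuum many copies of the caterpillar of `c`, for every `c`, and `G a` of continuum many copies
of the caterpillar of `c` for every `c` and every good witness `w` for `(a, c)`. If good witnesses
can be chosen in a Borel way, then a Schröder-Bernstein argument fibred over the codes `c` gives an
isomorphism from `G a` to `G₀`. Conversely, a caterpillar embeds only into the caterpillar of the
same code, so that every injective Borel homomorphism from `G₀` to `G a` chooses good witnesses.
-/

set_option autoImplicit false

open Set MeasureTheory TopologicalSpace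

namespace Pool.Agent.Results.MP_389802_lc.OneCubicForest

open Pool.Agent.TH723.BI (Baire IsCode Sigma12 BorelGraph BorelIso TameForest isoRel
  sigma12_isoRel exists_code')

/-- There is an injective Borel homomorphism from `G` to `H`. -/
def Embeds {X : Type} [MeasurableSpace X] (G H : Set (X × X)) : Prop :=
  ∃ h : X → X, Measurable h ∧ Function.Injective h ∧ ∀ x x', (x, x') ∈ G → (h x, h x') ∈ H

/-- `G` is a cubic forest: a Borel graph which is acyclic, has all degrees at most three, and
whose connectedness relation is smooth. -/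
def CubicForest {X : Type} [MeasurableSpace X] (G : Set (X × X)) : Prop :=
  BorelGraph G ∧ TameForest G ∧ ∀ x, {x' | (x, x') ∈ G}.ncard ≤ 3

/-- The inverse of a Borel isomorphism is a Borel isomorphism. -/
theorem borelIso_symm {X : Type} [MeasurableSpace X] [StandardBorelSpace X] {G H : Set (X × X)}
    (h : BorelIso G H) : BorelIso H G := by
  obtain ⟨f, hf, hfb, hfe⟩ := h
  let fe : X ≃ X := Equiv.ofBijective f hfb
  have hg : Measurable fe.symm := by
    have h1 := (hf.measurableEmbedding hfb.injective)
    intro s hs
    have h2 : fe.symm ⁻¹' s = f '' s := by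
      rw [← Equiv.image_eq_preimage_symm]
      rfl
    rw [h2]
    exact h1.measurableSet_image.2 hs
  refine ⟨fe.symm, hg, fe.symm.bijective, fun x x' => ?_⟩
  have h3 := hfe (fe.symm x) (fe.symm x')
  have h4 : f (fe.symm x) = x := fe.apply_symm_apply x
  have h5 : f (fe.symm x') = x' := fe.apply_symm_apply x'
  rw [h4, h5] at h3
  exact h3.symm

theorem sigma12_section {R : Set (Baire × Baire)} (hR : Sigma12 R) (c₀ : Baire) :
    Sigma12 {c | (c₀, c) ∈ R} := by
  obtain ⟨P, hP, h⟩ := hR
  refine ⟨{p | ((c₀, p.1), p.2) ∈ P}, ?_, fun c => h (c₀, c)⟩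
  have hc : Continuous fun p : Baire × Baire => (((c₀, p.1), p.2) : (Baire × Baire) × Baire) := by
    fun_prop
  exact hP.preimage hc

/-- Let `X` be an uncountable Polish space, and let Borel subsets of `X × X` be coded in the
standard way by points of the Baire space, relative to any countable basis `U` of `X × X`. There
is a cubic forest `G₀` on `X`, with code `c₀`, such that:

* the set of codes of Borel graphs on `X` isomorphic to `G₀` is `Σ¹₂` (and so is the relation
  of Borel isomorphism on codes of Borel graphs);
* for every `Σ¹₂` subset `A` of every Polish space there is a Borel map `f` whose values are codes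
  of cubic forests `G ⊆ G₀`, such that `G` is Borel isomorphic to `G₀` if `a ∈ A`, whereas
  `G₀` does not even embed into `G` if `a ∉ A`.

So the isomorphism class of one graph is `Σ¹₂`-complete, and every class of graphs between this
class and the class of the graphs containing a Borel copy of `G₀` is `Σ¹₂`-hard, already for
subgraphs of `G₀`. -/
theorem result (X : Type) [TopologicalSpace X] [PolishSpace X] [MeasurableSpace X] [BorelSpace X]
    (hX : ¬ Countable X) (U : ℕ → Set (X × X)) (hU : IsTopologicalBasis (range U)) :
    Sigma12 (isoRel U) ∧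
    ∃ (G₀ : Set (X × X)) (c₀ : Baire), CubicForest G₀ ∧ IsCode U c₀ G₀ ∧
      Sigma12 {c | (c₀, c) ∈ isoRel U} ∧
      ∀ (α : Type) [TopologicalSpace α] [PolishSpace α] [MeasurableSpace α] [BorelSpace α]
        (A : Set α), Sigma12 A → ∃ f : α → Baire, Measurable f ∧
          (∀ a, a ∈ A ↔ (c₀, f a) ∈ isoRel U) ∧
          ∀ a, ∃ G : Set (X × X), CubicForest G ∧ IsCode U (f a) G ∧ G ⊆ G₀ ∧
            (a ∈ A → BorelIso G₀ G) ∧ (a ∉ A → ¬ Embeds G₀ G) := by
  have hU' : (Prod.instMeasurableSpace : MeasurableSpace (X × X)) =
      MeasurableSpace.generateFrom (range U) := by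
    rw [← hU.borel_eq_generateFrom]
    exact BorelSpace.measurable_eq
  have hiso := sigma12_isoRel hX hU'
  let e : Y607.BI.V ≃ᵐ X :=
    PolishSpace.measurableEquivOfNotCountable Y607.BI.not_countable_V hX
  have hB := Y607.BI.borelGraph_grX e Y607.BI.measurableSet_D0
  obtain ⟨c₀, hc₀⟩ := exists_code' hU' hB.1
  refine ⟨hiso, Y607.BI.grX e Y607.BI.D0, c₀, ⟨hB,
    Y607.BI.tameForest_grX e Y607.BI.measurableSet_D0, fun x => (Y607.BI.degree_grX e _ x).2⟩,
    hc₀, sigma12_section hiso c₀, ?_⟩
  intro α _ _ _ _ A hA
  obtain ⟨f, hf, h⟩ := Y607.BI.hard e hU' hA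
  refine ⟨f, hf, fun a => ?_, fun a => ?_⟩
  · obtain ⟨G, hG, hGB, hGT, hG3, hs, h1, h2⟩ := h a
    constructor
    · intro ha
      exact ⟨_, G, hc₀, hG, hB, hGB, borelIso_symm (h1 ha)⟩
    · rintro ⟨G', H', hG', hH', -, -, hGH⟩
      have e1 := hG'.unique hc₀
      have e2 := hH'.unique hG
      subst e1 e2
      by_contra ha
      obtain ⟨k, hk, hkb, hke⟩ := hGH
      exact h2 ha ⟨k, hk, hkb.injective, fun x x' hx => (hke x x').1 hx⟩
  · obtain ⟨G, hG, hGB, hGT, hG3, hs, h1, h2⟩ := h a
    exact ⟨G, ⟨hGB, hGT, hG3⟩, hG, hs, fun ha => borelIso_symm (h1 ha), h2⟩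

end Pool.Agent.Results.MP_389802_lc.OneCubicForest
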